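import Mathlib
import Pool.Agent.R400.PermLap

/-!
# MP_5909b9_co, Q1: the permanental Q-polynomial is not a complete graph invariant

We exhibit two non-isomorphic graphs on 8 vertices with the same permanental polynomial
`P(G; x, λ, μ) = per (xI + λA + μ(J - I - A))`, hence with the same `Q`-polynomial.
-/

open Equiv Finset Matrix

namespace Pool.Agent.Results.MP_5909b9_co.QNotComplete

open Pool.Agent.R400

/-- The ring `ℚ[x, λ, μ]`; the variables are `x = X 0`, `λ = X 1`, `μ = X 2`. -/
abbrev Poly := MvPolynomial (Fin 3) ℚ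

/-- The variable `x`. -/
noncomputable abbrev x : Poly := MvPolynomial.X 0
/-- The variable `λ`. -/
noncomputable abbrev l : Poly := MvPolynomial.X 1
/-- The variable `μ`. -/
noncomputable abbrev m : Poly := MvPolynomial.X 2

/-- The all-ones matrix `J`. -/
noncomputable def J (n : ℕ) : Matrix (Fin n) (Fin n) Poly := Matrix.of fun _ _ => 1

open Classical in
/-- The adjacency matrix of a graph on the vertex set `Fin n`. -/
noncomputable def A {n : ℕ} (G : SimpleGraph (Fin n)) : Matrix (Fin n) (Fin n) Poly :=
  G.adjMatrix Poly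

/-- The permanental polynomial `P(G; x, λ, μ) = per (xI + λA + μ(J - I - A))`. -/
noncomputable def P {n : ℕ} (G : SimpleGraph (Fin n)) : Poly :=
  (x • (1 : Matrix (Fin n) (Fin n) Poly) + l • A G + m • (J n - 1 - A G)).permanent

/-- The linear operator `ω` with `ω (x^a λ^b μ^r) = x^a λ^b μ^r / r!`. -/
noncomputable def omega : Poly →ₗ[ℚ] Poly :=
  (MvPolynomial.basisMonomials (Fin 3) ℚ).constr ℚ
    (fun d => MvPolynomial.monomial d (1 / ((d 2).factorial : ℚ)))

/-- The `Q`-polynomial `Q(G; x, λ, μ) = ω P(G; x + μ, λ + μ, μ)`. -/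
noncomputable def Q {n : ℕ} (G : SimpleGraph (Fin n)) : Poly :=
  omega (MvPolynomial.aeval ![x + m, l + m, m] (P G))

/-! ### The second form of `Q` -/

theorem map_permanent {R S : Type*} [CommSemiring R] [CommSemiring S] {n : ℕ} (f : R →+* S)
    (M : Matrix (Fin n) (Fin n) R) : f M.permanent = (M.map f).permanent := by
  simp [Matrix.permanent, map_sum, map_prod]

theorem Q_eq {n : ℕ} (G : SimpleGraph (Fin n)) :
    Q G = omega ((x • (1 : Matrix (Fin n) (Fin n) Poly) + l • A G + m • J n).permanent) := by
  unfold Q P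
  congr 1
  have := map_permanent (MvPolynomial.aeval (R := ℚ) ![x + m, l + m, m]).toRingHom
    (x • (1 : Matrix (Fin n) (Fin n) Poly) + l • A G + m • (J n - 1 - A G))
  refine this.trans ?_
  congr 1
  ext i j
  simp only [Matrix.map_apply, Matrix.add_apply, Matrix.smul_apply, Matrix.sub_apply, smul_eq_mul,
    A, J, Matrix.of_apply, SimpleGraph.adjMatrix_apply, Matrix.one_apply]
  by_cases hij : i = j
  · subst hij
    simp
  · by_cases h : G.Adj i j <;> simp [hij, h]

/-! ### Reduction to counting permutations -/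

/-- matrix of types: `0` on the diagonal, `1` for edges, `2` for non-edges -/
def ty (g : ℕ → ℕ) (i j : Fin 8) : Fin 3 := if i = j then 0 else if (g i).testBit j then 1 else 2

/-- exponent attached to a type -/
def w (t : Fin 3) : ℕ := if t = 0 then 0 else if t = 1 then 1 else 9

/-- Exponent attached to a permutation. -/
def code (T : Fin 8 → Fin 8 → Fin 3) (s : Perm (Fin 8)) : ℕ := ∑ i, w (T (s i) i)

/-- The monomial belonging to a code. -/
noncomputable def F (c : ℕ) : Poly := x ^ (8 - c % 9 - c / 9) * l ^ (c % 9) * m ^ (c / 9)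

theorem prod_type (T : Fin 8 → Fin 3) :
    (∏ i, (MvPolynomial.X (T i) : Poly)) = F (∑ i, w (T i)) ∧ ∑ i, w (T i) < 81 := by
  have h0 : (∏ i, (MvPolynomial.X (T i) : Poly)) =
      ∏ t : Fin 3, (MvPolynomial.X t : Poly) ^ (#{i | T i = t}) := by
    rw [← Finset.prod_fiberwise_of_maps_to (s := univ) (t := univ) (g := T) (fun _ _ => mem_univ _)]
    refine Finset.prod_congr rfl fun t _ => ?_
    rw [Finset.prod_congr rfl (g := fun _ => (MvPolynomial.X t : Poly))]
    · simp
    · intro i hi
      simp only [mem_filter, mem_univ, true_and] at hi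
      rw [hi]
  have h1 : ∑ i, w (T i) = ∑ t : Fin 3, (#{i | T i = t}) * w t := by
    rw [← Finset.sum_fiberwise_of_maps_to (s := univ) (t := univ) (g := T) (fun _ _ => mem_univ _)]
    refine Finset.sum_congr rfl fun t _ => ?_
    rw [Finset.sum_congr rfl (g := fun _ => w t)]
    · simp
    · intro i hi
      simp only [mem_filter, mem_univ, true_and] at hi
      rw [hi]
  have h2 : ∑ t : Fin 3, (#{i | T i = t}) = 8 := by
    rw [← Finset.card_eq_sum_card_fiberwise (s := (univ : Finset (Fin 8))) (t := univ) (f := T)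
      (fun _ _ => mem_coe.2 (mem_univ _))]
    simp
  rw [Fin.sum_univ_three] at h1 h2
  rw [Fin.prod_univ_three] at h0
  simp only [w] at h1
  norm_num at h1
  set a := #{i | T i = 0}
  set b := #{i | T i = 1}
  set c := #{i | T i = 2}
  have e1 : (∑ i, w (T i)) % 9 = b := by
    have : ∑ i, w (T i) = b + c * 9 := by simpa [w] using h1
    omega
  have e2 : (∑ i, w (T i)) / 9 = c := by
    have : ∑ i, w (T i) = b + c * 9 := by simpa [w] using h1
    omega
  refine ⟨?_, ?_⟩
  · rw [h0, F, e1, e2]
    congr 2
    congr 1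
    omega
  · have : ∑ i, w (T i) = b + c * 9 := by simpa [w] using h1
    omega

theorem perm_eq_sum (T : Fin 8 → Fin 8 → Fin 3) :
    (Matrix.permanent (fun i j => (MvPolynomial.X (T i j) : Poly))) =
      ∑ c ∈ range 81, (#{s : Perm (Fin 8) | code T s = c}) • F c := by
  unfold Matrix.permanent
  rw [← Finset.sum_fiberwise_of_maps_to (s := univ) (t := range 81) (g := code T)
    (fun s _ => mem_range.2 (prod_type (fun i => T (s i) i)).2)]
  refine Finset.sum_congr rfl fun c _ => ?_
  rw [Finset.sum_congr rfl (g := fun _ => F c)]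
  · simp
  · intro s hs
    simp only [mem_filter, mem_univ, true_and] at hs
    rw [(prod_type (fun i => T (s i) i)).1]
    exact congrArg F hs

/-- the base -/
def B : ℕ := 65536

theorem nat_perm_eq_sum (T : Fin 8 → Fin 8 → Fin 3) :
    (Matrix.permanent (fun i j => B ^ w (T i j))) =
      ∑ c ∈ range 81, (#{s : Perm (Fin 8) | code T s = c}) * B ^ c := by
  unfold Matrix.permanent
  rw [← Finset.sum_fiberwise_of_maps_to (s := univ) (t := range 81) (g := code T)
    (fun s _ => mem_range.2 (prod_type (fun i => T (s i) i)).2)]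
  refine Finset.sum_congr rfl fun c _ => ?_
  rw [Finset.sum_congr rfl (g := fun _ => B ^ c)]
  · simp
  · intro s hs
    simp only [mem_filter, mem_univ, true_and] at hs
    rw [Finset.prod_pow_eq_pow_sum]
    exact congrArg (B ^ ·) hs

theorem digits_unique {b : ℕ} (hb : 0 < b) : ∀ (n : ℕ) (u v : ℕ → ℕ), (∀ c, u c < b) →
    (∀ c, v c < b) → ∑ c ∈ range n, u c * b ^ c = ∑ c ∈ range n, v c * b ^ c →
    ∀ c < n, u c = v c
  | 0, _, _, _, _, _, c, hc => absurd hc (Nat.not_lt_zero c)
  | n+1, u, v, hu, hv, h, c, hc => by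
      rw [Finset.sum_range_succ', Finset.sum_range_succ'] at h
      have e : ∀ z : ℕ → ℕ, ∑ k ∈ range n, z (k+1) * b ^ (k+1) =
          b * ∑ k ∈ range n, z (k+1) * b ^ k := by
        intro z
        rw [Finset.mul_sum]
        exact Finset.sum_congr rfl fun k _ => by ring
      rw [e, e] at h
      simp only [pow_zero, mul_one] at h
      have h0 : u 0 = v 0 := by
        have := congrArg (· % b) h
        simpa [Nat.add_mod, Nat.mod_eq_of_lt (hu 0), Nat.mod_eq_of_lt (hv 0)] using this
      have h1 : ∑ k ∈ range n, u (k+1) * b ^ k = ∑ k ∈ range n, v (k+1) * b ^ k := by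
        rw [h0] at h
        exact Nat.eq_of_mul_eq_mul_left hb (Nat.add_right_cancel h)
      cases c with
      | zero => exact h0
      | succ c =>
        exact digits_unique hb n (fun k => u (k+1)) (fun k => v (k+1)) (fun k => hu _)
          (fun k => hv _) h1 c (by omega)

theorem poly_eq_of_nat_eq (T U : Fin 8 → Fin 8 → Fin 3)
    (h : Matrix.permanent (fun i j => B ^ w (T i j)) = Matrix.permanent (fun i j => B ^ w (U i j))) :
    (Matrix.permanent (fun i j => (MvPolynomial.X (T i j) : Poly))) =
      Matrix.permanent (fun i j => (MvPolynomial.X (U i j) : Poly)) := by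
  rw [nat_perm_eq_sum, nat_perm_eq_sum] at h
  have hlt : ∀ (V : Fin 8 → Fin 8 → Fin 3) (c : ℕ), #{s : Perm (Fin 8) | code V s = c} < B := by
    intro V c
    refine lt_of_le_of_lt (Finset.card_le_univ _) ?_
    rw [Fintype.card_perm, Fintype.card_fin]
    decide
  have := digits_unique (b := B) (by decide) 81 (fun c => #{s : Perm (Fin 8) | code T s = c})
    (fun c => #{s : Perm (Fin 8) | code U s = c}) (hlt T) (hlt U) h
  rw [perm_eq_sum, perm_eq_sum]
  refine Finset.sum_congr rfl fun c hc => ?_
  have h2 : #{s : Perm (Fin 8) | code T s = c} = #{s : Perm (Fin 8) | code U s = c} :=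
    this c (mem_range.1 hc)
  rw [h2]

/-! ### Computation -/

/-- natural number version of `cp` -/
def cpN : ℕ → List (List ℕ) → ℕ
  | 0, _ => 1
  | n+1, rows => (picks rows).foldr (fun q s => q.1.headD 0 * cpN n (q.2.map List.tail) + s) 0

theorem cpN_eq : ∀ (n : ℕ) (r : List (List ℕ)), cpN n r = cp n r
  | 0, r => rfl
  | n+1, r => by
      rw [cpN, cp]
      have : ∀ L : List (List ℕ × List (List ℕ)),
          L.foldr (fun q s => q.1.headD 0 * cpN n (q.2.map List.tail) + s) 0 =
            (L.map (fun q => q.1.headD 0 * cp n (q.2.map List.tail))).sum := by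
        intro L
        induction L with
        | nil => rfl
        | cons q L ih => rw [List.foldr_cons, ih, List.map_cons, List.sum_cons, cpN_eq n]
      exact this _

/-- rows for the computation -/
def mk (g : ℕ → ℕ) : List (List ℕ) :=
  (List.range 8).map fun i => (List.range 8).map fun j =>
    if i = j then 1 else if (g i).testBit j then 65536 else 65536 ^ 9

/-- neighbourhood masks of the first graph -/
def gm (i : ℕ) : ℕ := [184, 240, 224, 129, 67, 135, 22, 47].getD i 0
/-- neighbourhood masks of the second graph -/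
def hm (i : ℕ) : ℕ := [248, 208, 96, 97, 131, 141, 15, 51].getD i 0

set_option maxRecDepth 100000 in
theorem main_computation : cpN 8 (mk gm) = cpN 8 (mk hm) := by decide +kernel

theorem ofFn_eq_mk (g : ℕ → ℕ) :
    (List.ofFn fun i : Fin 8 => List.ofFn fun j : Fin 8 => B ^ w (ty g i j)) = mk g := by
  apply List.ext_getElem
  · simp [mk]
  · intro a h1 h2
    simp only [List.length_ofFn] at h1
    apply List.ext_getElem
    · simp only [List.getElem_ofFn, List.length_ofFn, mk, List.getElem_map, List.length_map,
        List.length_range]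
    · intro b h3 h4
      simp only [List.getElem_ofFn, List.length_ofFn] at h3
      simp only [List.getElem_ofFn, mk, List.getElem_map, List.getElem_range, ty, B, w,
        Fin.ext_iff]
      by_cases hab : a = b
      · simp [hab]
      · by_cases ht : (g a).testBit b <;> simp [hab, ht]

theorem nat_perm_eq : Matrix.permanent (fun i j => B ^ w (ty gm i j)) =
    Matrix.permanent (fun i j => B ^ w (ty hm i j)) := by
  rw [← cp_ofFn 8 (fun i j => B ^ w (ty gm i j)), ← cp_ofFn 8 (fun i j => B ^ w (ty hm i j)),
    ofFn_eq_mk, ofFn_eq_mk, ← cpN_eq, ← cpN_eq]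
  exact main_computation

/-! ### The two graphs -/

/-- The first graph: vertex `i` is adjacent to `j` iff bit `j` of `gm i` is set. -/
def G : SimpleGraph (Fin 8) where
  Adj i j := (gm i).testBit j = true
  symm := ⟨by decide⟩
  loopless := ⟨by decide⟩

/-- The second graph: vertex `i` is adjacent to `j` iff bit `j` of `hm i` is set. -/
def H : SimpleGraph (Fin 8) where
  Adj i j := (hm i).testBit j = true
  symm := ⟨by decide⟩
  loopless := ⟨by decide⟩

instance : DecidableRel G.Adj := fun i j => inferInstanceAs (Decidable ((gm i).testBit j = true))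
instance : DecidableRel H.Adj := fun i j => inferInstanceAs (Decidable ((hm i).testBit j = true))

theorem P_eq (K : SimpleGraph (Fin 8)) (g : ℕ → ℕ) (h : ∀ i j : Fin 8, K.Adj i j ↔ (g i).testBit j = true) :
    P K = Matrix.permanent (fun i j => (MvPolynomial.X (ty g i j) : Poly)) := by
  unfold P
  congr 1
  ext1 i j
  have hl : ¬ K.Adj i i := K.loopless.irrefl i
  simp only [Matrix.add_apply, Matrix.smul_apply, Matrix.sub_apply, smul_eq_mul, A, J,
    Matrix.of_apply, SimpleGraph.adjMatrix_apply, Matrix.one_apply, ty]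
  by_cases hij : i = j
  · subst hij
    simp
  · by_cases hA : K.Adj i j
    · have := (h i j).1 hA
      simp [hij, hA, this]
    · have : ¬ ((g i).testBit j = true) := fun h' => hA ((h i j).2 h')
      simp [hij, hA, this]

theorem P_G_eq_P_H : P G = P H := by
  rw [P_eq G gm (fun _ _ => Iff.rfl), P_eq H hm (fun _ _ => Iff.rfl)]
  exact poly_eq_of_nat_eq _ _ nat_perm_eq

theorem not_iso : IsEmpty (G ≃g H) := by
  refine ⟨fun e => ?_⟩
  have hd : ∀ v, H.degree (e v) = G.degree v := fun v => by
    rw [← SimpleGraph.Iso.degree_eq e v]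
  have h3 : e 3 = 2 := by
    have h := hd 3
    have h' : G.degree 3 = 2 := by decide
    rw [h'] at h
    revert h
    generalize e 3 = v
    revert v
    decide
  have h7 : e 7 = 0 := by
    have h := hd 7
    have h' : G.degree 7 = 5 := by decide
    rw [h'] at h
    revert h
    generalize e 7 = v
    revert v
    decide
  have ha : G.Adj 3 7 := by decide
  have hb : H.Adj (e 3) (e 7) := e.map_adj_iff.2 ha
  rw [h3, h7] at hb
  exact absurd hb (by decide)

/-- **MP_5909b9_co, Q1 (negative answer).** The permanental `Q`-polynomial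
`Q(G) = ω P(G; x + μ, λ + μ, μ) = ω per (xI + λA + μJ)` is not a complete graph invariant: there
are two non-isomorphic graphs on 8 vertices with the same `P` and the same `Q`. -/
theorem result :
    (∀ (n : ℕ) (K : SimpleGraph (Fin n)),
      Q K = omega ((x • (1 : Matrix (Fin n) (Fin n) Poly) + l • A K + m • J n).permanent)) ∧
    (∃ G H : SimpleGraph (Fin 8), P G = P H ∧ Q G = Q H ∧ ¬ Nonempty (G ≃g H)) ∧
    ¬ (∀ n : ℕ, 1 ≤ n → ∀ G H : SimpleGraph (Fin n), Q G = Q H → Nonempty (G ≃g H)) := by
  have hQ : Q G = Q H := by rw [Q, Q, P_G_eq_P_H]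
  have hn : ¬ Nonempty (G ≃g H) := not_nonempty_iff.2 not_iso
  exact ⟨fun n K => Q_eq K, ⟨G, H, P_G_eq_P_H, hQ, hn⟩,
    fun h => hn (h 8 (by norm_num) G H hQ)⟩

end Pool.Agent.Results.MP_5909b9_co.QNotComplete
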